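import Pool.Agent.Y209.QA.Top
import Pool.Agent.Y209.QA.Log
import Pool.Agent.Y209.QA.DualQ

/-!
# A `ℚ`-acyclic surface of log-general type with `H²(V, Θ_V⟨D⟩) ≠ 0`

The plane is blown up at the twelve triple points of the dual Hesse configuration of nine lines,
and `D` is the sum of the strict transforms of the nine lines and of the exceptional curves over
the four points lying on one of the lines. Then `H⁰(V, Ω¹_V(log D) ⊗ K_V)`, which is the Serre dual
of `H²(V, Θ_V⟨D⟩)`, contains two independent sections: in suitable coordinates, they are given by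
`yz (y³ - z³) dx + zx (z³ - x³) dy + xy (x³ - y³) dz` and
`x² (z³ - y³) dx + y² (x³ - z³) dy + z² (y³ - x³) dz`.
-/

namespace Pool.Agent.Results.MP_ee7b66_ag.NonVanishingH2

open Pool.Agent.Y209.QA
open Pool.Agent.Y209.Geo (P2)

/-- There are twelve points `q` of the plane, nine lines `a`, and four `e` of the twelve points,
such that, on the blow-up `V` of the plane at the points `q`, the sum `D` of the strict transforms
of the lines and of the four exceptional curves is a minimal simple normal crossings divisor,
`X = V ∖ D` is `ℚ`-acyclic and of log-general type,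
`dim H⁰(V, Ω¹_V(log D) ⊗ K_V) = h²(V, Θ_V⟨D⟩)` is at least `2`, and
`χ(Θ_V⟨D⟩) = K (K + D) = 2`. -/
theorem result : ∃ (q : Fin 12 → P2) (a : Fin 9 → P2) (e : Fin 4 → Fin 12),
    IsSNC q a e ∧ IsMinimal q a e ∧ QAcyclic (Surf q a e) ∧ LogGeneralType q a e ∧
    2 ≤ Module.finrank ℂ (H0Dual q a e) ∧
    ip (KV 12) (KV 12 + clD q a e) = 2 :=
  ⟨qq, ll, ee, isSNC, isMinimal, qacyclic, logGeneralType, dual_ge, ip_KD⟩

end Pool.Agent.Results.MP_ee7b66_ag.NonVanishingH2
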